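import Pool.Agent.H47.ST.CellA
import Pool.Agent.H47.ST.ShiftD

/-!
# Project FULL, phase slip: from the carrier operator to the relative complexes

`H` is a homotopy from the identity to the permutation `e` whose values at `σ` only depend on
the cochain on the simplices in the carriers of `σ`. If the carriers of the simplices of `X` which
are not inside `A'` are in `X₁`, and the carriers of their faces inside `A'` are in `A`, then the
cocycles on `(X₁, A)` differ from their images under `e` by a coboundary on `(X, A')`.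
-/

set_option autoImplicit false

namespace Pool.Agent.H21.SL

open Pool.Agent.H47.ST

variable {ι : Type*} [Fintype ι] {F : Type*} [Field F]

/-- `w` is in the `j`-th carrier of `σ`: between the coordinatewise minimum of `lo j`, `lo (j+1)`
and the coordinatewise maximum of `hi j`, `hi (j+1)` on `σ` -/
def Car (lo hi : ℕ → (ι → ℤ) → (ι → ℤ)) (j : ℕ) (σ : Finset (ι → ℤ)) (w : ι → ℤ) : Prop :=
  ∀ i, (∃ v ∈ σ, lo j v i ≤ w i ∨ lo (j + 1) v i ≤ w i) ∧
    (∃ v ∈ σ, w i ≤ hi j v i ∨ w i ≤ hi (j + 1) v i)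

/-- the properties of the homotopy of the carrier theorem -/
structure CarH (L : AddSubgroup (ι → ℤ)) (e : Equiv.Perm ι) (J : ℕ)
    (lo hi : ℕ → (ι → ℤ) → (ι → ℤ)) (H : Co ι F →ₗ[F] Co ι F) : Prop where
  hom : ∀ (a : Co ι F) (σ : Finset (ι → ℤ)), Simp σ →
    a σ - Tp e a σ = dd (H a) σ + H (dd a) σ
  sup : ∀ (a : Co ι F) (σ : Finset (ι → ℤ)), H a σ ≠ 0 → ∃ ρ : Finset (ι → ℤ), a ρ ≠ 0 ∧
    Simp ρ ∧ ρ.card = σ.card + 1 ∧ ∃ j < J, ∀ w ∈ ρ, Car lo hi j σ w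
  inv : ∀ a : Co ι F, (∀ l ∈ L, ∀ σ, a (tr l σ) = a σ) → ∀ l ∈ L, ∀ σ, H a (tr l σ) = H a σ

theorem slip_car {L : AddSubgroup (ι → ℤ)} {e : Equiv.Perm ι} {J : ℕ}
    {lo hi : ℕ → (ι → ℤ) → (ι → ℤ)} {H : Co ι F →ₗ[F] Co ι F} (hH : CarH L e J lo hi H)
    {X X₁ A A' : Set (ι → ℤ)} (hX : Inv L X) (hA' : Inv L A') (hAA : A' ⊆ A) (heA : PInv e A')
    (hin : ∀ σ, In X σ → ¬ (∀ v ∈ σ, v ∈ A') → ∀ j < J, ∀ w, Car lo hi j σ w → w ∈ X₁)
    (hlow : ∀ σ τ, τ ⊆ σ → In X σ → ¬ (∀ v ∈ σ, v ∈ A') → (∀ v ∈ τ, v ∈ A') →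
      ∀ j < J, ∀ w, Car lo hi j τ w → w ∈ A)
    {p : ℕ} {x : Co ι F} (hx : x ∈ co (F := F) L X₁ A (p + 1)) (hd : dX X₁ x = 0) :
    ∃ y ∈ co (F := F) L X A' p, ∀ σ, In X σ → x σ - Tp e x σ = dX X y σ := by
  classical
  refine ⟨cut (fun σ => In X σ ∧ ¬ ∀ v ∈ σ, v ∈ A') (H x), ⟨fun l hl σ => ?_, fun σ h => ?_⟩,
    fun σ hσ => ?_⟩
  · have h1 : (In X (tr l σ) ∧ ¬ ∀ v ∈ tr l σ, v ∈ A') ↔ (In X σ ∧ ¬ ∀ v ∈ σ, v ∈ A') := by
      rw [CellA_tr_In hX hl]
      refine and_congr_right fun _ => not_congr ⟨fun h v hv => ?_, fun h v hv => ?_⟩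
      · refine (hA' l hl v).2 (h _ ?_)
        exact Finset.mem_map_of_mem _ hv
      · obtain ⟨u, hu, rfl⟩ := Finset.mem_map.1 hv
        exact (hA' l hl u).1 (h u hu)
    rw [cut_apply, cut_apply, hH.inv x hx.1 l hl σ]
    by_cases h : In X σ ∧ ¬ ∀ v ∈ σ, v ∈ A'
    · rw [if_pos h, if_pos (h1.2 h)]
    · rw [if_neg h, if_neg fun h2 => h (h1.1 h2)]
  · rw [cut_apply] at h
    split_ifs at h with h1
    · obtain ⟨ρ, h2, -, h3, -⟩ := hH.sup x σ h
      have h4 := (hx.2 ρ h2).2.2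
      exact ⟨h1.1, h1.2, by omega⟩
    · exact absurd rfl h
  · rw [dX_apply, if_pos hσ]
    by_cases hl : ∀ v ∈ σ, v ∈ A'
    · have h1 : x σ = 0 := by
        by_contra h
        exact (hx.2 σ h).2.1 fun v hv => hAA (hl v hv)
      have h2 : Tp e x σ = 0 := by
        by_contra h
        have h3 : x (σ.map (pe e).toEmbedding) ≠ 0 := h
        refine (hx.2 _ h3).2.1 fun v hv => ?_
        obtain ⟨u, hu, rfl⟩ := Finset.mem_map.1 hv
        exact hAA ((heA u).1 (hl u hu))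
      rw [h1, h2, sub_zero]
      symm
      refine Finset.sum_eq_zero fun v hv => ?_
      rw [cut_apply, if_neg, mul_zero]
      rintro ⟨-, h3⟩
      exact h3 fun w hw => hl w (Finset.mem_of_mem_erase hw)
    · have h1 : H (dd x) σ = 0 := by
        by_contra h
        obtain ⟨ρ, h2, h3, -, j, hj, h4⟩ := hH.sup _ σ h
        have h5 := congrFun hd ρ
        rw [dX_apply, if_pos ⟨h3, fun w hw => hin σ hσ hl j hj w (h4 w hw)⟩] at h5
        exact h2 h5
      have h2 := hH.hom x σ hσ.1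
      rw [h1, add_zero] at h2
      rw [h2, dd_apply]
      refine Finset.sum_congr rfl fun v hv => ?_
      congr 1
      rw [cut_apply]
      by_cases h3 : In X (σ.erase v) ∧ ¬ ∀ w ∈ σ.erase v, w ∈ A'
      · rw [if_pos h3]
      · rw [if_neg h3]
        have h4 : ∀ w ∈ σ.erase v, w ∈ A' := by
          by_contra h5
          exact h3 ⟨CellA_In_erase hσ v, h5⟩
        by_contra h
        obtain ⟨ρ, h5, -, -, j, hj, h6⟩ := hH.sup _ _ h
        exact (hx.2 ρ h5).2.1 fun w hw =>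
          hlow σ _ (Finset.erase_subset v σ) hσ hl h4 j hj w (h6 w hw)

end Pool.Agent.H21.SL
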